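import Pool.Agent.helper67.TPD.Spec

/-!
# Project tpd, row RB4: the four right sides
-/

set_option autoImplicit false

open Finset PowerSeries

noncomputable section

namespace Pool.Agent.TPD

open Finset Pool.Agent.EP Pool.Agent.PQ

theorem RB4_ndvd (s : Finset ℕ) (P : ℕ) (hs : ∀ q ∈ s, q.Prime ∧ q % 24 = 7) (hP : P.Prime) (hPs : P ∉ s) :
    ∀ q ∈ s, q.Prime ∧ q % 24 = 7 ∧ ¬ q ∣ P := by
  intro q hq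
  refine ⟨(hs q hq).1, (hs q hq).2, fun hd => ?_⟩
  rcases (Nat.dvd_prime hP).mp hd with h | h
  · exact (hs q hq).1.one_lt.ne' h
  · exact hPs (h ▸ hq)

theorem RB4_left (hNIL : NIL_stmt) (b : ℕ) (s : Finset ℕ) (P M : ℕ) (hs : ∀ q ∈ s, q.Prime ∧ q % 24 = 7)
    (hc : 2 ^ b ≤ #s) (hP : P.Prime) (hP6 : P.Coprime 6) (hPs : P ∉ s) : RB b ((∏ q ∈ s, q) * P) M = 0 := by
  unfold RB
  refine Finset.sum_eq_zero fun i hi => ?_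
  rw [mem_Ico] at hi
  rw [hNIL s P i (RB4_ndvd s P hs hP hPs) hP6 (by omega), zero_mul]

theorem RB4_right (hNIL : NIL_stmt) (b : ℕ) (s : Finset ℕ) (P M : ℕ) (hs : ∀ q ∈ s, q.Prime ∧ q % 24 = 7)
    (hc : 2 ^ b ≤ #s) (hP : P.Prime) (hP6 : P.Coprime 6) (hPs : P ∉ s) : RB b M ((∏ q ∈ s, q) * P) = 0 := by
  unfold RB
  refine Finset.sum_eq_zero fun i hi => ?_
  rw [mem_Ico] at hi
  rw [hNIL s P (2 ^ b - i) (RB4_ndvd s P hs hP hPs) hP6 (by omega), mul_zero]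

theorem RB4 (hOSD : OSD_stmt) (hNIL : NIL_stmt) : RB4_stmt := by
  intro κ b s s₁ s₂ P₁ P₂ R₁ R₂ hκ hb hs hs₁ hs₂ hcs hcs₁ hcs₂ hP₁ hP₂ hR₁ hR₂ hP7 hR7 hP6 hR6 hRs hPs hRs2
  rw [RB4_right hNIL b s₂ R₂ P₁ hs₂ hcs₂ hR₂ hR6 hRs2, RB4_left hNIL b s₁ P₂ _ hs₁ hcs₁ hP₂ hP6 hPs,
    RB4_left hNIL b s₁ P₂ _ hs₁ hcs₁ hP₂ hP6 hPs, hb, hOSD κ s P₁ R₁ hκ hs hcs hP₁ hP7 hR₁ hR7 hRs]
  rfl

end Pool.Agent.TPD
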